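import Pool.Agent.MP_2489e7_pr.H60.Main

open MeasureTheory Filter Topology Pool.Agent.MP_2489e7_pr.H60

namespace Pool.Agent.Results.MP_2489e7_pr.ManyKinks

/-- For every `d ≥ 2` and every `N` there is a finitely supported, fully strongly irreducible and
fully proximal probability measure on `GL(d, ℝ)` (carried by determinant one matrices if `d ≥ 3`)
whose moment exponent `k` is not differentiable at `N` points. -/
theorem result (d : ℕ) (hd : 2 ≤ d) (N : ℕ)
    [MeasurableSpace (GL (Fin d) ℝ)] [BorelSpace (GL (Fin d) ℝ)] :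
    ∃ μ : Measure (GL (Fin d) ℝ), IsProbabilityMeasure μ ∧ μ.support.Finite ∧
      (3 ≤ d → ∀ g ∈ μ.support, (g : Matrix (Fin d) (Fin d) ℝ).det = 1) ∧
      (∀ i, 1 ≤ i → i ≤ d - 1 →
        GoodOnWedge (fun g : GL (Fin d) ℝ => (g : Matrix (Fin d) (Fin d) ℝ).mulVecLin)
          (closedSemigroup μ) i) ∧
      ∃ k : ℝ → ℝ,
        (∀ t : ℝ, Tendsto
          (fun n : ℕ => (1 / (n : ℝ)) * Real.log (∫ g, opNorm g ^ t ∂(convPow μ n)))
          atTop (𝓝 (k t))) ∧
        ∃ F : Finset ℝ, F.card = N ∧ ∀ t ∈ F, ¬ DifferentiableAt ℝ k t :=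
  main d hd N

end Pool.Agent.Results.MP_2489e7_pr.ManyKinks
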